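import Pool.Agent.E8helper39.WW.Stm

set_option autoImplicit false

/-!
# Piece GP of project WW
-/

open Module Submodule

namespace Pool.Agent.E8helper91.WW

open WW39

section aux
variable {V : Type} [AddCommGroup V] [Module ℝ V]

/-- rank at most one -/
lemma gp_one (Q : Set V) (q : V) (hQ : Q.Finite) (hg : Gen Q q) (hb : span ℝ Q ≠ ⊥)
    (hr : ¬ 2 ≤ finrank ℝ (span ℝ Q)) :
    ∃ f, Cut Q f ∧ 0 < f q ∧ ∀ x ∈ span ℝ Q, InCl Q q x → f x = 0 → x = 0 := by
  have : FiniteDimensional ℝ (span ℝ Q) := FiniteDimensional.span_of_finite ℝ hQ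
  have h1 : finrank ℝ (span ℝ Q) ≤ 1 := by omega
  obtain ⟨v, hv⟩ := finrank_le_one_iff.1 h1
  obtain ⟨e, he, he0⟩ : ∃ e ∈ Q, e ≠ 0 := by
    by_contra hcon
    push Not at hcon
    exact hb (Submodule.span_eq_bot.2 hcon)
  obtain ⟨f, hf⟩ : ∃ f : Dual ℝ V, f e ≠ 0 := by
    by_contra hcon
    push Not at hcon
    exact he0 ((Module.forall_dual_apply_eq_zero_iff ℝ e).1 hcon)
  obtain ⟨c0, hc0⟩ := hv ⟨e, subset_span he⟩
  have hc0' : c0 • (v : V) = e := congrArg Subtype.val hc0
  have key : ∀ (f : Dual ℝ V), f e ≠ 0 → ∀ x ∈ span ℝ Q, f x = 0 → x = 0 := by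
    intro f hf x hx hfx
    obtain ⟨c, hc⟩ := hv ⟨x, hx⟩
    have hc' : c • (v : V) = x := congrArg Subtype.val hc
    have hfv : f (v : V) ≠ 0 := by
      intro h
      apply hf
      rw [← hc0', map_smul, h, smul_zero]
    rw [← hc', map_smul, smul_eq_mul] at hfx
    rcases mul_eq_zero.1 hfx with h | h
    · rw [← hc', h, zero_smul]
    · exact absurd h hfv
  have cut : ∀ (f : Dual ℝ V), f e ≠ 0 → Cut Q f := by
    intro f hf
    refine ⟨⟨e, he, hf⟩, fun x hx hfx => ?_⟩
    rw [key f hf x hx hfx]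
    exact Submodule.zero_mem _
  have hfq := hg f (cut f hf)
  rcases lt_or_gt_of_ne hfq with h | h
  · have hnf : (-f) e ≠ 0 := by simpa using hf
    refine ⟨-f, cut _ hnf, by simpa using h, fun x hx _ hfx => key _ hnf x hx hfx⟩
  · exact ⟨f, cut f hf, h, fun x hx _ hfx => key f hf x hx hfx⟩

end aux

theorem t_GP (h1 : S_TUTTE) (h2 : S_EXZ) : S_GP := by
  intro V _ _ Q q
  induction hn : Q.ncard using Nat.strong_induction_on generalizing Q q with
  | _ n ih =>
  intro hQ hC hq hg hb
  by_cases hr : 2 ≤ finrank ℝ (span ℝ Q)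
  swap
  · exact gp_one Q q hQ hg hb hr
  obtain ⟨z, hz, hz1, hz2⟩ := h2 V Q q hQ hC hq hg hr
  have hz0 : z ≠ 0 := by
    rintro rfl
    exact hz1 (fun f _ _ => by simp)
  have hsub : Q \ {z} ⊆ Q := Set.sdiff_subset
  have hins : insert z (Q \ {z}) = Q := by
    rw [Set.insert_sdiff_singleton, Set.insert_eq_of_mem hz]
  have hcard : (Q \ {z}).ncard < n := by
    rw [← hn]
    exact Set.ncard_sdiff_singleton_lt_of_mem hz hQ
  rcases h1 V Q z hQ hC hz with hD | hD
  · -- deletion
    have hzm : z ∈ span ℝ (Q \ {z}) := by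
      by_contra hcon
      have hdis : Disjoint (span ℝ {z}) (span ℝ (Q \ {z})) := by
        rw [Submodule.disjoint_def]
        intro x hx hx'
        obtain ⟨c, rfl⟩ := Submodule.mem_span_singleton.1 hx
        by_cases hc : c = 0
        · rw [hc, zero_smul]
        · exfalso
          apply hcon
          have := Submodule.smul_mem _ c⁻¹ hx'
          rwa [smul_smul, inv_mul_cancel₀ hc, one_smul] at this
      rcases hC {z} (by simpa using hz) hdis with h | h
      · exact absurd h (Set.singleton_ne_empty z)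
      · rw [← h] at hr
        have := finrank_span_singleton (K := ℝ) hz0
        omega
    have hspan : span ℝ (Q \ {z}) = span ℝ Q := by
      apply le_antisymm (span_mono hsub)
      rw [Submodule.span_le]
      intro x hx
      by_cases hxz : x = z
      · rw [hxz]; exact hzm
      · exact subset_span ⟨hx, hxz⟩
    have hcut : ∀ f : Dual ℝ V, Cut (Q \ {z}) f → Cut Q f := by
      rintro f ⟨⟨e, he, hfe⟩, hf⟩
      refine ⟨⟨e, hsub he, hfe⟩, fun x hx hfx => ?_⟩
      rw [← hspan] at hx
      exact span_mono (Set.inter_subset_inter_left _ hsub) (hf x hx hfx)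
    obtain ⟨f, hf1, hf2, hf3⟩ := ih _ hcard (Q \ {z}) q rfl (hQ.subset hsub) hD (by rw [hspan]; exact hq)
      (fun f hf => hg f (hcut f hf)) (by rw [hspan]; exact hb)
    refine ⟨f, hcut f hf1, hf2, fun x hx hxc hfx => ?_⟩
    refine hf3 x (by rw [hspan]; exact hx) (fun g hg1 hg2 => hxc g (hcut g hg1) hg2) hfx
  · -- contraction
    obtain ⟨φ, hφ⟩ : ∃ φ : Dual ℝ V, φ z = 1 := by
      obtain ⟨f, hf⟩ : ∃ f : Dual ℝ V, f z ≠ 0 := by
        by_contra hcon
        push Not at hcon
        exact hz0 ((Module.forall_dual_apply_eq_zero_iff ℝ z).1 hcon)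
      exact ⟨(f z)⁻¹ • f, by simp [inv_mul_cancel₀ hf]⟩
    let π : V →ₗ[ℝ] V := LinearMap.id - φ.smulRight z
    have hπ : ∀ x, π x = x - φ x • z := fun x => by simp [π]
    have hπz : π z = 0 := by rw [hπ, hφ, one_smul, sub_self]
    have hker : ∀ x, π x = 0 → x = φ x • z := by
      intro x hx
      rw [hπ] at hx
      exact sub_eq_zero.1 hx
    set Q' : Set V := π '' (Q \ {z}) with hQ'
    -- image of spans
    have himg : ∀ C : Set V, (span ℝ (insert z C)).map π = span ℝ (π '' C) := by
      intro C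
      rw [Submodule.map_span, Set.image_insert_eq, hπz, Submodule.span_insert_zero]
    have hspQ : (span ℝ Q).map π = span ℝ Q' := by
      rw [← himg, hins]
    have hQ'f : Q'.Finite := (hQ.subset hsub).image _
    have hQ'c : Q'.ncard < n := lt_of_le_of_lt (Set.ncard_image_le (hQ.subset hsub)) hcard
    have hC' : Conn Q' := by
      intro A hA hdis
      set C : Set V := (Q \ {z}) ∩ π ⁻¹' A with hCdef
      have e1 : π '' C = A := by
        ext y
        constructor
        · rintro ⟨x, hx, rfl⟩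
          exact hx.2
        · intro hy
          obtain ⟨x, hx, rfl⟩ := hA hy
          exact ⟨x, ⟨hx, hy⟩, rfl⟩
      have e2 : π '' ((Q \ {z}) \ C) = Q' \ A := by
        ext y
        constructor
        · rintro ⟨x, hx, rfl⟩
          exact ⟨⟨x, hx.1, rfl⟩, fun h => hx.2 ⟨hx.1, h⟩⟩
        · rintro ⟨⟨x, hx, rfl⟩, hy⟩
          exact ⟨x, ⟨hx, fun h => hy h.2⟩, rfl⟩
      have hle : span ℝ (insert z C) ⊓ span ℝ (insert z ((Q \ {z}) \ C)) ≤ span ℝ {z} := by
        rintro x ⟨hx1, hx2⟩
        have a1 : π x ∈ span ℝ A := by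
          rw [← e1, ← himg]
          exact Submodule.mem_map_of_mem hx1
        have a2 : π x ∈ span ℝ (Q' \ A) := by
          rw [← e2, ← himg]
          exact Submodule.mem_map_of_mem hx2
        have a3 : π x = 0 := (Submodule.disjoint_def.1 hdis) _ a1 a2
        rw [hker x a3]
        exact Submodule.smul_mem _ _ (Submodule.mem_span_singleton_self z)
      rcases hD C Set.inter_subset_left hle with h | h
      · left
        rw [← e1, h, Set.image_empty]
      · right
        rw [← e1, h]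
    have hcut : ∀ f' : Dual ℝ V, Cut Q' f' → Cut Q (f' ∘ₗ π) := by
      rintro f' ⟨⟨e, ⟨e0, he0, rfl⟩, hfe⟩, hf⟩
      refine ⟨⟨e0, hsub he0, hfe⟩, fun x hx hfx => ?_⟩
      have hx' : π x ∈ span ℝ Q' := by
        rw [← hspQ]
        exact Submodule.mem_map_of_mem hx
      have h3 := hf (π x) hx' hfx
      have h4 : Q' ∩ {e | f' e = 0} ⊆ π '' (Q ∩ {e | (f' ∘ₗ π) e = 0}) := by
        rintro _ ⟨⟨y, hy, rfl⟩, hy2⟩
        exact ⟨y, ⟨hsub hy, hy2⟩, rfl⟩
      have h5 : π x ∈ (span ℝ (Q ∩ {e | (f' ∘ₗ π) e = 0})).map π := by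
        rw [Submodule.map_span]
        exact span_mono h4 h3
      obtain ⟨y, hy, hyx⟩ := Submodule.mem_map.1 h5
      have h6 : π (x - y) = 0 := by rw [map_sub, hyx, sub_self]
      have h7 := hker _ h6
      have h8 : x = φ (x - y) • z + y := by rw [← h7]; abel
      rw [h8]
      refine Submodule.add_mem _ (Submodule.smul_mem _ _ (subset_span ⟨hz, ?_⟩)) hy
      change f' (π z) = 0
      rw [hπz, map_zero]
    have hb' : span ℝ Q' ≠ ⊥ := by
      intro h
      have hall : ∀ x ∈ Q, x ∈ span ℝ {z} := by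
        intro x hx
        have h3 : π x ∈ span ℝ Q' := by
          rw [← hspQ]
          exact Submodule.mem_map_of_mem (subset_span hx)
        rw [h, Submodule.mem_bot] at h3
        rw [hker x h3]
        exact Submodule.smul_mem _ _ (Submodule.mem_span_singleton_self z)
      have h4 : span ℝ Q ≤ span ℝ {z} := Submodule.span_le.2 hall
      have h5 := Submodule.finrank_mono h4
      have h6 := finrank_span_singleton (K := ℝ) hz0
      omega
    obtain ⟨f', hf1, hf2, hf3⟩ := ih _ hQ'c Q' (π q) rfl hQ'f hC'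
      (by rw [← hspQ]; exact Submodule.mem_map_of_mem hq)
      (fun f hf => hg _ (hcut f hf)) hb'
    refine ⟨f' ∘ₗ π, hcut f' hf1, hf2, fun x hx hxc hfx => ?_⟩
    have hx0 : π x = 0 := by
      refine hf3 (π x) ?_ (fun g hg1 hg2 => hxc (g ∘ₗ π) (hcut g hg1) hg2) hfx
      rw [← hspQ]
      exact Submodule.mem_map_of_mem hx
    have hxe := hker x hx0
    rcases lt_trichotomy (φ x) 0 with hc | hc | hc
    · exfalso
      apply hz2
      intro g hg1 hg2
      have h3 := hxc g hg1 hg2
      rw [hxe, map_smul, smul_eq_mul] at h3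
      rw [map_neg]
      by_contra hcon
      push Not at hcon
      have : 0 < g z := by linarith
      have := mul_neg_of_neg_of_pos hc this
      linarith
    · rw [hxe, hc, zero_smul]
    · exfalso
      apply hz1
      intro g hg1 hg2
      have h3 := hxc g hg1 hg2
      rw [hxe, map_smul, smul_eq_mul] at h3
      by_contra hcon
      push Not at hcon
      have := mul_neg_of_pos_of_neg hc hcon
      linarith

end Pool.Agent.E8helper91.WW
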